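import Pool.Agent.Helper20.Flip.Defs

/-!
# Invariance of flip sequences under scaling
-/

set_option autoImplicit false

namespace Pool.Agent.Helper20.Flip

theorem cross_smul (r : ℝ) (A B C : Pt) : cross (r • A) (r • B) (r • C) = r ^ 2 * cross A B C := by
  simp only [cross, Prod.smul_fst, Prod.smul_snd, smul_eq_mul]
  ring

theorem mirror_smul {r : ℝ} (hr : 0 < r) (A B X : Pt) :
    mirror (r • A) (r • B) (r • X) = r • mirror A B X := by
  have h2 : r ^ 2 ≠ 0 := by positivity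
  have h1 : ((r * X.1 - r * A.1) * (r * B.1 - r * A.1) +
      (r * X.2 - r * A.2) * (r * B.2 - r * A.2)) /
      ((r * B.1 - r * A.1) ^ 2 + (r * B.2 - r * A.2) ^ 2) =
      ((X.1 - A.1) * (B.1 - A.1) + (X.2 - A.2) * (B.2 - A.2)) /
      ((B.1 - A.1) ^ 2 + (B.2 - A.2) ^ 2) := by
    have e1 : (r * X.1 - r * A.1) * (r * B.1 - r * A.1) +
      (r * X.2 - r * A.2) * (r * B.2 - r * A.2) =
      r ^ 2 * ((X.1 - A.1) * (B.1 - A.1) + (X.2 - A.2) * (B.2 - A.2)) := by ring
    have e2 : (r * B.1 - r * A.1) ^ 2 + (r * B.2 - r * A.2) ^ 2 =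
      r ^ 2 * ((B.1 - A.1) ^ 2 + (B.2 - A.2) ^ 2) := by ring
    rw [e1, e2, mul_div_mul_left _ _ h2]
  apply Prod.ext
  · simp only [mirror, Prod.smul_fst, Prod.smul_snd, smul_eq_mul, h1]
    ring
  · simp only [mirror, Prod.smul_fst, Prod.smul_snd, smul_eq_mul, h1]
    ring

theorem smul_mem_segment {r : ℝ} {A B X : Pt} (h : X ∈ segment ℝ A B) :
    r • X ∈ segment ℝ (r • A) (r • B) := by
  obtain ⟨a, b, ha, hb, hab, rfl⟩ := h
  refine ⟨a, b, ha, hb, hab, ?_⟩
  rw [smul_add, smul_comm a r A, smul_comm b r B]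

theorem inv_smul_fun {n : ℕ} (V : ZMod n → Pt) {r : ℝ} (hr : 0 < r) :
    (fun i => r⁻¹ • (fun i => r • V i) i) = V := by
  funext i
  simp only
  rw [smul_smul, inv_mul_cancel₀ hr.ne', one_smul]

theorem smul_inj' {r : ℝ} (hr : 0 < r) {A B : Pt} (h : r • A = r • B) : A = B :=
  smul_right_injective Pt hr.ne' h

theorem isSimple_of_smul {n : ℕ} {V : ZMod n → Pt} {r : ℝ} (hr : 0 < r)
    (h : IsSimple (fun i => r • V i)) : IsSimple V := by
  obtain ⟨h1, h2, h3⟩ := h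
  refine ⟨h1, fun i hi => h2 i (by simp only [hi]), fun i j hij X hX hX' => ?_⟩
  rcases h3 i j hij (r • X) (smul_mem_segment hX) (smul_mem_segment hX') with ⟨h4, h5⟩ | ⟨h4, h5⟩
  · exact Or.inl ⟨h4, smul_inj' hr h5⟩
  · exact Or.inr ⟨h4, smul_inj' hr h5⟩

theorem isSimple_smul {n : ℕ} {V : ZMod n → Pt} {r : ℝ} (hr : 0 < r) :
    IsSimple (fun i => r • V i) ↔ IsSimple V := by
  refine ⟨isSimple_of_smul hr, fun h => ?_⟩
  refine isSimple_of_smul (inv_pos.2 hr) ?_
  rw [inv_smul_fun V hr]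
  exact h

theorem area2_smul {n : ℕ} (V : ZMod n → Pt) (r : ℝ) :
    area2 (fun i => r • V i) = r ^ 2 * area2 V := by
  unfold area2
  rw [Finset.mul_sum]
  apply Finset.sum_congr rfl
  intro k _
  simp only [Prod.smul_fst, Prod.smul_snd, smul_eq_mul]
  ring

theorem isPocket_smul {n : ℕ} {V : ZMod n → Pt} {r : ℝ} (hr : 0 < r) {i : ZMod n} {m : ℕ}
    (h : IsPocket V i m) : IsPocket (fun i => r • V i) i m := by
  obtain ⟨h1, h2, h3, h4, h5, t, h6, h7, h8⟩ := h
  have hr2 : 0 < r ^ 2 := by positivity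
  refine ⟨h1, h2, fun h => h3 (smul_inj' hr h), fun k => ?_, fun k hk => ?_, t, h6, h7, ?_⟩
  · rw [cross_smul]
    exact mul_nonneg hr2.le (h4 k)
  · rw [cross_smul] at hk
    exact smul_mem_segment (h5 k ((mul_eq_zero.1 hk).resolve_left hr2.ne'))
  · rw [cross_smul]
    exact mul_pos hr2 h8

theorem flip_smul {n : ℕ} (V : ZMod n → Pt) {r : ℝ} (hr : 0 < r) (i : ZMod n) (m : ℕ) :
    flip (fun i => r • V i) i m = fun k => r • flip V i m k := by
  classical
  funext k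
  unfold flip
  by_cases h : ∃ t : ℕ, 0 < t ∧ t < m ∧ k = i + t
  · rw [if_pos h, if_pos h, mirror_smul hr]
  · rw [if_neg h, if_neg h]

theorem flipSeq_smul {n : ℕ} {V V' : ZMod n → Pt} {r : ℝ} (hr : 0 < r) {m : ℕ}
    (h : FlipSeq m V V') : FlipSeq m (fun i => r • V i) (fun i => r • V' i) := by
  induction h with
  | refl V => exact FlipSeq.refl _
  | step i l hp hs _ ih =>
    refine FlipSeq.step i l (isPocket_smul hr hp) ?_ ?_
    · rw [flip_smul _ hr]
      exact (isSimple_smul hr).2 hs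
    · rw [flip_smul _ hr]
      exact ih

theorem isConvex_smul {n : ℕ} {V : ZMod n → Pt} {r : ℝ} (h : IsConvex V) :
    IsConvex (fun i => r • V i) := by
  intro i k
  rw [cross_smul]
  exact mul_nonneg (sq_nonneg r) (h i k)

theorem longest_of_longest {n : ℕ} {V : ZMod n → Pt} {r : ℝ} (hr : 0 < r) {k : ℕ}
    (h : Longest V k) : Longest (fun i => r • V i) k := by
  obtain ⟨m, hm, V', hV', hc⟩ := h
  exact ⟨m, hm, _, flipSeq_smul hr hV', isConvex_smul hc⟩

theorem longest_smul {n : ℕ} {V : ZMod n → Pt} {r : ℝ} (hr : 0 < r) (k : ℕ) :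
    Longest (fun i => r • V i) k ↔ Longest V k := by
  refine ⟨fun h => ?_, longest_of_longest hr⟩
  have := longest_of_longest (inv_pos.2 hr) h
  rw [inv_smul_fun V hr] at this
  exact this

end Pool.Agent.Helper20.Flip
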